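import Pool.Agent.Q41.GT.Stm5

/-!
Job R1 of project GT (helper41): the homogeneous lift.
-/

set_option autoImplicit false

namespace Pool.Agent.Q176.GT.R1

open Finset Polynomial Pool.Agent.Q41.GT
open Pool.Agent.W277.UH (ratP1 ratP1_some ratP1_some0 ratP1_none ratP1_none0)

variable {K : Type*} [Field K]

lemma sum_eval (p : K[X]) (d : ℕ) (h : p.natDegree ≤ d) (a b : K) (hb : b ≠ 0) :
    ∑ i ∈ range (d + 1), p.coeff i * a ^ i * b ^ (d - i) = b ^ d * p.eval (a / b) := by
  rw [Polynomial.eval_eq_sum_range' (Nat.lt_succ_of_le h), Finset.mul_sum]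
  refine Finset.sum_congr rfl fun i hi => ?_
  have hi' : i ≤ d := Nat.lt_succ_iff.mp (Finset.mem_range.mp hi)
  have h1 : b ^ d = b ^ (d - i) * b ^ i := by rw [← pow_add, Nat.sub_add_cancel hi']
  rw [h1, div_pow]
  field_simp

lemma sum_top (p : K[X]) (d : ℕ) (a : K) :
    ∑ i ∈ range (d + 1), p.coeff i * a ^ i * (0 : K) ^ (d - i) = p.coeff d * a ^ d := by
  rw [Finset.sum_eq_single d]
  · rw [Nat.sub_self, pow_zero, mul_one]
  · intro i hi hne
    have hi' : i ≤ d := Nat.lt_succ_iff.mp (Finset.mem_range.mp hi)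
    rw [zero_pow (Nat.sub_ne_zero_of_lt (lt_of_le_of_ne hi' hne)), mul_zero]
  · intro h
    exact absurd (Finset.mem_range.mpr (Nat.lt_succ_self d)) h

lemma lift0 (p q : K[X]) (d : ℕ) (v : Fin 2 → K) :
    lift p q d v 0 = ∑ i ∈ range (d + 1), p.coeff i * v 0 ^ i * v 1 ^ (d - i) := rfl

lemma lift1 (p q : K[X]) (d : ℕ) (v : Fin 2 → K) :
    lift p q d v 1 = ∑ i ∈ range (d + 1), q.coeff i * v 0 ^ i * v 1 ^ (d - i) := rfl

lemma ne_zero_iff (v : Fin 2 → K) : v ≠ 0 ↔ ¬ (v 0 = 0 ∧ v 1 = 0) := by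
  rw [not_iff_not]
  constructor
  · rintro rfl
    exact ⟨rfl, rfl⟩
  · rintro ⟨h0, h1⟩
    funext i
    fin_cases i
    · exact h0
    · exact h1

lemma pt_none {v : Fin 2 → K} (h : v 1 = 0) : pt v = none := by
  unfold pt
  exact if_pos h

lemma pt_some {v : Fin 2 → K} (h : v 1 ≠ 0) : pt v = some (v 0 / v 1) := by
  unfold pt
  exact if_neg h

lemma step {d : ℕ} {p q : K[X]} (hc : IsCoprime p q) (hd : max p.natDegree q.natDegree = d)
    {v : Fin 2 → K} (hv : v ≠ 0) :
    lift p q d v ≠ 0 ∧ ratP1 p q d (pt v) = pt (lift p q d v) := by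
  have hp : p.natDegree ≤ d := hd ▸ le_max_left _ _
  have hq : q.natDegree ≤ d := hd ▸ le_max_right _ _
  by_cases h1 : v 1 = 0
  · have h0 : v 0 ≠ 0 := fun h => (ne_zero_iff v).mp hv ⟨h, h1⟩
    have e0 : lift p q d v 0 = p.coeff d * v 0 ^ d := by rw [lift0, h1, sum_top]
    have e1 : lift p q d v 1 = q.coeff d * v 0 ^ d := by rw [lift1, h1, sum_top]
    have hpow : v 0 ^ d ≠ 0 := pow_ne_zero _ h0
    have hne : ¬ (p.coeff d = 0 ∧ q.coeff d = 0) := by
      rintro ⟨hp0, hq0⟩
      rcases Nat.eq_zero_or_pos d with hd0 | hdpos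
      · rw [hd0] at hp0 hq0 hp hq
        have h5 : p = 0 := by rw [Polynomial.eq_C_of_natDegree_le_zero hp, hp0, C_0]
        have h6 : q = 0 := by rw [Polynomial.eq_C_of_natDegree_le_zero hq, hq0, C_0]
        rw [h5, h6] at hc
        exact not_isUnit_zero (isCoprime_zero_left.mp hc)
      · rcases le_total p.natDegree q.natDegree with hle | hle
        · rw [max_eq_right hle] at hd
          have h5 : q ≠ 0 := by
            rintro rfl
            rw [natDegree_zero] at hd
            omega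
          apply Polynomial.leadingCoeff_ne_zero.mpr h5
          rw [Polynomial.leadingCoeff, hd]
          exact hq0
        · rw [max_eq_left hle] at hd
          have h5 : p ≠ 0 := by
            rintro rfl
            rw [natDegree_zero] at hd
            omega
          apply Polynomial.leadingCoeff_ne_zero.mpr h5
          rw [Polynomial.leadingCoeff, hd]
          exact hp0
    rw [pt_none h1]
    constructor
    · rw [ne_zero_iff, e0, e1]
      rintro ⟨h2, h3⟩
      exact hne ⟨(mul_eq_zero.mp h2).resolve_right hpow, (mul_eq_zero.mp h3).resolve_right hpow⟩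
    · by_cases hq0 : q.coeff d = 0
      · rw [ratP1_none0 _ _ _ hq0, pt_none (by rw [e1, hq0, zero_mul])]
      · rw [ratP1_none _ _ _ hq0, pt_some (by rw [e1]; exact mul_ne_zero hq0 hpow), e0, e1]
        congr 1
        field_simp
  · have hpow : v 1 ^ d ≠ 0 := pow_ne_zero _ h1
    have e0 : lift p q d v 0 = v 1 ^ d * p.eval (v 0 / v 1) := by
      rw [lift0, sum_eval p d hp _ _ h1]
    have e1 : lift p q d v 1 = v 1 ^ d * q.eval (v 0 / v 1) := by
      rw [lift1, sum_eval q d hq _ _ h1]
    have hne : ¬ (p.eval (v 0 / v 1) = 0 ∧ q.eval (v 0 / v 1) = 0) := by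
      rintro ⟨h2, h3⟩
      obtain ⟨a, b, hab⟩ := hc
      have h4 := congrArg (Polynomial.eval (v 0 / v 1)) hab
      rw [eval_add, eval_mul, eval_mul, h2, h3, mul_zero, mul_zero, add_zero, eval_one] at h4
      exact zero_ne_one h4
    rw [pt_some h1]
    constructor
    · rw [ne_zero_iff, e0, e1]
      rintro ⟨h2, h3⟩
      exact hne ⟨(mul_eq_zero.mp h2).resolve_left hpow, (mul_eq_zero.mp h3).resolve_left hpow⟩
    · by_cases hq0 : q.eval (v 0 / v 1) = 0
      · rw [ratP1_some0 _ _ _ _ hq0, pt_none (by rw [e1, hq0, mul_zero])]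
      · rw [ratP1_some _ _ _ _ hq0, pt_some (by rw [e1]; exact mul_ne_zero hpow hq0), e0, e1]
        congr 1
        field_simp

lemma pt_eq_iff {v w : Fin 2 → K} (hv : v ≠ 0) (hw : w ≠ 0) :
    v 1 * w 0 - v 0 * w 1 = 0 ↔ pt w = pt v := by
  rw [sub_eq_zero]
  by_cases h1 : v 1 = 0
  · have h0 : v 0 ≠ 0 := fun h => (ne_zero_iff v).mp hv ⟨h, h1⟩
    rw [pt_none h1, h1, zero_mul]
    by_cases h2 : w 1 = 0
    · rw [pt_none h2, h2, mul_zero]
      simp
    · rw [pt_some h2]
      constructor
      · intro h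
        exact absurd h.symm (mul_ne_zero h0 h2)
      · intro h
        exact absurd h (by simp)
  · rw [pt_some h1]
    by_cases h2 : w 1 = 0
    · have h0 : w 0 ≠ 0 := fun h => (ne_zero_iff w).mp hw ⟨h, h2⟩
      rw [pt_none h2, h2, mul_zero]
      constructor
      · intro h
        exact absurd h (mul_ne_zero h1 h0)
      · intro h
        exact absurd h (by simp)
    · rw [pt_some h2, Option.some_inj, div_eq_div_iff h2 h1]
      constructor
      · intro h
        rw [mul_comm (w 0), h]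
      · intro h
        rw [← h, mul_comm]

/-- iterates of the lift commute with evaluation -/
lemma eval_lift (d : ℕ) (p q : K[X]) (v : Fin 2 → K) (F : Fin 2 → MvPolynomial (Fin 2) K) :
    (fun i => MvPolynomial.eval v (lift p q d F i)) =
      lift p q d (fun i => MvPolynomial.eval v (F i)) := by
  funext i
  fin_cases i
  · show MvPolynomial.eval v (∑ i ∈ range (d + 1), algebraMap K (MvPolynomial (Fin 2) K)
      (p.coeff i) * F 0 ^ i * F 1 ^ (d - i)) = ∑ i ∈ range (d + 1), p.coeff i *
      (MvPolynomial.eval v (F 0)) ^ i * (MvPolynomial.eval v (F 1)) ^ (d - i)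
    rw [map_sum]
    refine Finset.sum_congr rfl fun i _ => ?_
    rw [map_mul, map_mul, map_pow, map_pow, MvPolynomial.algebraMap_eq, MvPolynomial.eval_C]
  · show MvPolynomial.eval v (∑ i ∈ range (d + 1), algebraMap K (MvPolynomial (Fin 2) K)
      (q.coeff i) * F 0 ^ i * F 1 ^ (d - i)) = ∑ i ∈ range (d + 1), q.coeff i *
      (MvPolynomial.eval v (F 0)) ^ i * (MvPolynomial.eval v (F 1)) ^ (d - i)
    rw [map_sum]
    refine Finset.sum_congr rfl fun i _ => ?_
    rw [map_mul, map_mul, map_pow, map_pow, MvPolynomial.algebraMap_eq, MvPolynomial.eval_C]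

lemma eval_iter (d : ℕ) (p q : K[X]) (v : Fin 2 → K) (k : ℕ) :
    (fun i => MvPolynomial.eval v ((lift p q d)^[k] MvPolynomial.X i)) = (lift p q d)^[k] v := by
  induction k with
  | zero =>
    funext i
    show MvPolynomial.eval v (MvPolynomial.X i) = v i
    rw [MvPolynomial.eval_X]
  | succ k ih =>
    rw [Function.iterate_succ_apply', Function.iterate_succ_apply', eval_lift, ih]

theorem hom : S_hom := by
  intro K _ d p q hc hd v hv k
  have key : (lift p q d)^[k] v ≠ 0 ∧ (ratP1 p q d)^[k] (pt v) = pt ((lift p q d)^[k] v) := by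
    induction k with
    | zero => exact ⟨hv, rfl⟩
    | succ k ih =>
      rw [Function.iterate_succ_apply', Function.iterate_succ_apply', ih.2]
      exact step hc hd ih.1
  refine ⟨key.1, key.2, ?_⟩
  have h1 : MvPolynomial.eval v (per p q d k) =
      v 1 * ((lift p q d)^[k] v) 0 - v 0 * ((lift p q d)^[k] v) 1 := by
    unfold per
    rw [map_sub, map_mul, map_mul, MvPolynomial.eval_X, MvPolynomial.eval_X, ← eval_iter d p q v k]
  rw [h1, pt_eq_iff hv key.1, key.2]

end Pool.Agent.Q176.GT.R1
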