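import Pool.Agent.Q41.GT.Stm5

/-!
Jobs R3, R4 of project GT (helper41): the function field, positive dimension.
-/

set_option autoImplicit false

namespace Pool.Agent.Q176.GT.R3

open Finset Polynomial Pool.Agent.Q41.GT Cardinal

theorem fun_ : S_fun := by
  intro k σ _ W P hP hW
  have hA : ∀ g : MvPolynomial σ k, MvPolynomial.aeval
      (fun i => algebraMap (MvPolynomial σ k ⧸ P) (FractionRing (MvPolynomial σ k ⧸ P))
        (Ideal.Quotient.mk P (MvPolynomial.X i))) g =
      algebraMap (MvPolynomial σ k ⧸ P) (FractionRing (MvPolynomial σ k ⧸ P))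
        (Ideal.Quotient.mk P g) := by
    intro g
    have h1 : MvPolynomial.aeval
      (fun i => algebraMap (MvPolynomial σ k ⧸ P) (FractionRing (MvPolynomial σ k ⧸ P))
        (Ideal.Quotient.mk P (MvPolynomial.X i))) =
        (IsScalarTower.toAlgHom k (MvPolynomial σ k ⧸ P)
          (FractionRing (MvPolynomial σ k ⧸ P))).comp (Ideal.Quotient.mkₐ k P) := by
      apply MvPolynomial.algHom_ext
      intro i
      rw [MvPolynomial.aeval_X]
      rfl
    rw [h1]
    rfl
  refine ⟨?_, ?_⟩
  · intro g
    rw [hA g, ← hW]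
    constructor
    · intro h
      have h1 := (map_eq_zero_iff (algebraMap (MvPolynomial σ k ⧸ P)
        (FractionRing (MvPolynomial σ k ⧸ P))) (IsFractionRing.injective _ _)).mp h
      exact Ideal.Quotient.eq_zero_iff_mem.mp h1
    · intro h
      rw [Ideal.Quotient.eq_zero_iff_mem.mpr h, map_zero]
  · rw [eq_top_iff]
    intro y _
    have h2 : ∀ a : MvPolynomial σ k ⧸ P, algebraMap (MvPolynomial σ k ⧸ P)
        (FractionRing (MvPolynomial σ k ⧸ P)) a ∈ IntermediateField.adjoin k (Set.range
          (fun i => algebraMap (MvPolynomial σ k ⧸ P) (FractionRing (MvPolynomial σ k ⧸ P))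
            (Ideal.Quotient.mk P (MvPolynomial.X i)))) := by
      intro a
      obtain ⟨g, rfl⟩ := Ideal.Quotient.mk_surjective a
      rw [← hA g]
      apply IntermediateField.algebra_adjoin_le_adjoin
      rw [Algebra.adjoin_range_eq_range_aeval]
      exact ⟨g, rfl⟩
    obtain ⟨a, b, hb, rfl⟩ := IsFractionRing.div_surjective (A := MvPolynomial σ k ⧸ P) y
    exact div_mem (h2 a) (h2 b)

theorem pos : S_pos := by
  intro k σ _ _ _ W hW K _ _ x hx
  obtain ⟨hx1, hx2⟩ := hx
  have halg : Algebra.IsAlgebraic (Algebra.adjoin k (Set.range x)) K := by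
    constructor
    intro y
    have hy : y ∈ IntermediateField.adjoin k (Set.range x) := by
      rw [hx2]
      exact IntermediateField.mem_top
    rw [IntermediateField.mem_adjoin_iff_div] at hy
    obtain ⟨r, hr, s, hs, rfl⟩ := hy
    by_cases hs0 : s = 0
    · rw [hs0, div_zero]
      exact isAlgebraic_zero
    · have h1 : IsAlgebraic (Algebra.adjoin k (Set.range x)) r :=
        isAlgebraic_algebraMap (⟨r, hr⟩ : Algebra.adjoin k (Set.range x))
      have h2 : IsAlgebraic (Algebra.adjoin k (Set.range x)) s :=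
        isAlgebraic_algebraMap (⟨s, hs⟩ : Algebra.adjoin k (Set.range x))
      rw [div_eq_mul_inv]
      exact h1.mul h2.inv
  have hle : Algebra.trdeg k K ≤ #(Set.range x) := 
    Algebra.IsAlgebraic.trdeg_le_cardinalMk k _
  have hfin : Algebra.trdeg k K < ℵ₀ := lt_of_le_of_lt hle (Cardinal.lt_aleph0_of_finite _)
  obtain ⟨w, hw⟩ := Cardinal.lt_aleph0.mp hfin
  refine ⟨w, ?_, hw⟩
  by_contra h0
  have hw0 : w = 0 := by omega
  rw [hw0, Nat.cast_zero] at hw
  have halg2 : Algebra.IsAlgebraic k K := trdeg_eq_zero_iff.mp hw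
  have hint : Algebra.IsIntegral k K := Algebra.IsAlgebraic.isIntegral
  have hc : ∀ i, ∃ c : k, algebraMap k K c = x i := fun i =>
    (IsAlgClosed.algebraMap_bijective_of_isIntegral (k := k) (K := K)).2 (x i)
  choose c hc using hc
  apply hW
  apply Set.Finite.subset (Set.finite_singleton c)
  intro z hz
  rw [Set.mem_singleton_iff]
  funext i
  have h3 : MvPolynomial.aeval x (MvPolynomial.X i - MvPolynomial.C (c i)) = 0 := by
    rw [map_sub, MvPolynomial.aeval_X, MvPolynomial.aeval_C, hc, sub_self]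
  have h4 := (hx1 _).mp h3
  rw [MvPolynomial.mem_vanishingIdeal_iff] at h4
  have h5 := h4 z hz
  rw [map_sub, MvPolynomial.aeval_X, MvPolynomial.aeval_C] at h5
  exact sub_eq_zero.mp h5

end Pool.Agent.Q176.GT.R3
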